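import Pool.Agent.H31.Fan

open Pool.Agent.H31.Fan

universe v

theorem Pool.Agent.Results.MP_632b8e_gt.Main.result :
    ∃ (G : Type) (_ : Group G) (_ : TopologicalSpace G), IsTopologicalGroup G ∧ T35Space G ∧
      NoCldFan.{0, v} G ∧ ¬CompactlyCoherentSpace G :=
  ⟨Multiplicative SG, inferInstance, inferInstance, inferInstance, inferInstanceAs (T35Space SG),
    noFan, notK⟩
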